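import Pool.Agent.Run7.h172.Npp.Aff
import Pool.Agent.Run7.h172.Nls.Log

/-!
# Natural averages over short intervals and unipotent affine maps of tori (MP_663568_nt)

For the Möbius and the Liouville function and unipotent affine maps `T x = A x + b` of tori the sum over `n ≤ N`,
WITHOUT logarithmic weights, of `sup |∑_{h ≤ H} F(T^{n+h} x) μ(n+h)|`, the supremum over all `b` in a compact set `E` AND
all starting points `x`, is `o(H N)`, uniformly over `N ≥ H`, if for the nonzero integral linear forms `k` fixed by `A` the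
numbers `k · b`, `b ∈ E`, are irrational and form a null set.
-/

set_option autoImplicit false

open Finset MeasureTheory

namespace Pool.Agent.Results.MP_663568_nt.NaturalAffineMaps

/-- `f` is multiplicative and bounded by one. -/
def IsBoundedMultiplicative (f : ℕ → ℂ) : Prop :=
  (∀ n, ‖f n‖ ≤ 1) ∧ ∀ a b : ℕ, a.Coprime b → f (a * b) = f a * f b

/-- the affine map `x ↦ A x + b` of the torus `ℝ^m/ℤ^m` -/
def affineMap {m : ℕ} (A : Matrix (Fin m) (Fin m) ℤ) (b x : Fin m → UnitAddCircle) : Fin m → UnitAddCircle :=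
  fun i => ∑ j, A i j • x j + b i

/-- the value `k · x` of the integral linear form `k` -/
def form {m : ℕ} (k : Fin m → ℤ) (x : Fin m → UnitAddCircle) : UnitAddCircle := ∑ i, k i • x i

/-- `E` is a compact set and for every nonzero integer vector `k` with `k A = k` the numbers `k · b`, `b ∈ E`, are
irrational modulo one and form a set of measure zero. -/
def SmallTranslations {m : ℕ} (A : Matrix (Fin m) (Fin m) ℤ) (E : Set (Fin m → UnitAddCircle)) : Prop :=
  IsCompact E ∧ ∀ k : Fin m → ℤ, k ≠ 0 → Matrix.vecMul k A = k →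
    volume (form k '' E) = 0 ∧ ∀ b ∈ E, ∀ t : ℝ, (t : UnitAddCircle) = form k b → Irrational t

/-- The supremum of `|∑_{1 ≤ h ≤ H} f(n + h) F(T^{n+h} x)|` over all maps `T x = A x + b` with `b ∈ E` and all starting
points `x` of the torus. -/
noncomputable def orbitSup {m : ℕ} (A : Matrix (Fin m) (Fin m) ℤ) (F : (Fin m → UnitAddCircle) → ℂ)
    (E : Set (Fin m → UnitAddCircle)) (f : ℕ → ℂ) (n H : ℕ) : ℝ :=
  ⨆ p : E × (Fin m → UnitAddCircle), ‖∑ h ∈ Icc 1 H, f (n + h) * F ((affineMap A p.1)^[n + h] p.2)‖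

/-- the Liouville function -/
noncomputable def lam (n : ℕ) : ℂ := (-1) ^ ArithmeticFunction.cardFactors n

/-- the Möbius function -/
noncomputable def mu (n : ℕ) : ℂ := ((ArithmeticFunction.moebius n : ℤ) : ℂ)

lemma torsion_free_of {t : ℝ} (h3 : Irrational t) : addOrderOf (t : UnitAddCircle) = 0 := by
  by_contra hne
  have h5 := addOrderOf_nsmul_eq_zero (t : UnitAddCircle)
  rw [← AddCircle.coe_nsmul, AddCircle.coe_eq_zero_iff] at h5
  obtain ⟨j, hj⟩ := h5
  apply h3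
  refine ⟨(j : ℚ) / (addOrderOf (t : UnitAddCircle) : ℚ), ?_⟩
  push_cast
  rw [div_eq_iff (by exact_mod_cast hne)]
  simp only [zsmul_eq_mul, mul_one, nsmul_eq_mul] at hj
  rw [hj]
  ring

open Pool.Agent.Run7.h172.Nls in
/-- short sums of the Möbius and the Liouville function -/
lemma short {g : ℕ → ℂ} (hg : g = lam ∨ g = mu) (ε : ℝ) (hε : 0 < ε) : ∃ H₀ : ℕ, ∀ N H : ℕ, H₀ ≤ H → H ≤ N →
    ∑ n ∈ Icc 1 N, ‖∑ h ∈ Icc 1 H, g (n + h)‖ ≤ ε * H * N := by
  have hmul : Pool.Agent.W24.Katai.Mul1 g ∧ Pool.Agent.TH823.MRS.ExpoSmall g := by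
    rcases hg with rfl | rfl
    · exact ⟨lamC_mul, lamC_expo⟩
    · exact ⟨muC_mul, muC_expo⟩
  obtain ⟨δ, hδ, H0, h0⟩ := uniformity_nhds hmul.1 hmul.2 (isClosed_singleton (x := (0 : UnitAddCircle)))
    (by rw [← Metric.closedBall_zero, AddCircle.volume_closedBall]; simp) (ε / 3) (by positivity)
  refine ⟨H0 + 1, fun N H hH hN => ?_⟩
  have h1 := h0 H (by omega) (N + 2) (by omega) (fun _ => 0) (fun n => ⟨0, rfl, by simp [hδ.le]⟩)
  simp only [mul_zero, Pool.Agent.H807R2.Dav.ee_zero, mul_one] at h1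
  have h2 : ∑ n ∈ Icc 1 N, ‖∑ h ∈ Icc 1 H, g (n + h)‖ ≤ ∑ n ∈ range (N + 2), ‖∑ i ∈ range H, g (n + i)‖ := by
    have e1 : ∀ n, ∑ h ∈ Icc 1 H, g (n + h) = ∑ i ∈ range H, g (n + 1 + i) := by
      intro n
      have e2 : Icc 1 H = Ico 1 (1 + H) := by ext n; simp only [mem_Icc, mem_Ico]; omega
      rw [e2, sum_Ico_eq_sum_range, Nat.add_sub_cancel_left]
      exact sum_congr rfl fun i _ => by rw [← Nat.add_assoc]
    simp only [e1]
    have e3 : ∑ n ∈ Icc 1 N, ‖∑ i ∈ range H, g (n + 1 + i)‖ =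
        ∑ n ∈ (Icc 1 N).image (fun n => n + 1), ‖∑ i ∈ range H, g (n + i)‖ := by
      rw [sum_image fun a _ b _ hab => by omega]
    rw [e3]
    apply sum_le_sum_of_subset_of_nonneg
    · intro k hk
      obtain ⟨j, hj, rfl⟩ := mem_image.1 hk
      rw [mem_Icc] at hj
      rw [mem_range]
      omega
    · intro _ _ _
      exact norm_nonneg _
  refine h2.trans (h1.trans ?_)
  have hN1 : (1 : ℝ) ≤ N := by exact_mod_cast (by omega : 1 ≤ N)
  have hHr : (0 : ℝ) ≤ H := Nat.cast_nonneg _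
  push_cast
  have h3 : ((N : ℝ) + 2) ≤ 3 * N := by linarith
  calc ε / 3 * (H : ℝ) * ((N : ℝ) + 2) ≤ ε / 3 * H * (3 * N) := mul_le_mul_of_nonneg_left h3 (by positivity)
    _ = ε * H * N := by ring

lemma mult_of {g : ℕ → ℂ} (hg : g = lam ∨ g = mu) : IsBoundedMultiplicative g := by
  rcases hg with rfl | rfl
  · exact Pool.Agent.Run7.h172.Nls.lamC_mul
  · exact Pool.Agent.Run7.h172.Nls.muC_mul

/-- **Natural averages over short intervals, unipotent affine maps.** Let `A` be a unipotent integer matrix, `F` a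
continuous function on the torus, `E` a compact set of translation vectors `b` such that for each nonzero integer vector
`k` with `k A = k` the numbers `k · b`, `b ∈ E`, are irrational and form a null set. Then for each `ε > 0` there is `H₀`
such that for all `N ≥ H ≥ H₀` and for `g` the Möbius function and the Liouville function
`∑_{n ≤ N} sup_{b ∈ E, x} |∑_{h ≤ H} g(n+h) F(T^{n+h} x)| ≤ ε H N`, `T x = A x + b`; the same holds for all multiplicative
functions `f` bounded by one, uniformly, if `F` is replaced by `F - ∫ F`. -/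
theorem result (m s : ℕ) (A : Matrix (Fin m) (Fin m) ℤ) (hA : (A - 1) ^ s = 0) (F : C(Fin m → UnitAddCircle, ℂ))
    (E : Set (Fin m → UnitAddCircle)) (hE : SmallTranslations A E) (ε : ℝ) (hε : 0 < ε) :
    ∃ H₀ : ℕ, ∀ N H : ℕ, H₀ ≤ H → H ≤ N →
      ∑ n ∈ Icc 1 N, orbitSup A F E mu n H ≤ ε * H * N ∧ ∑ n ∈ Icc 1 N, orbitSup A F E lam n H ≤ ε * H * N ∧
      ∀ f : ℕ → ℂ, IsBoundedMultiplicative f →
        ∑ n ∈ Icc 1 N, orbitSup A (fun x => F x - ∫ y, F y) E f n H ≤ ε * H * N := by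
  have hE' : ∀ k : Fin m → ℤ, k ≠ 0 → Matrix.vecMul k A = k → volume (Pool.Agent.Helper44K9.FB.lf k '' E) = 0 ∧
      ∀ b ∈ E, addOrderOf (Pool.Agent.Helper44K9.FB.lf k b) = 0 := by
    intro k hk hkA
    obtain ⟨h1, h2⟩ := hE.2 k hk hkA
    refine ⟨h1, fun b hb => ?_⟩
    obtain ⟨t, ht⟩ := QuotientAddGroup.mk_surjective (form k b)
    have h3 : Irrational t := h2 b hb t ht
    show addOrderOf (form k b) = 0
    rw [← ht]
    exact torsion_free_of h3
  obtain ⟨H₁, h₁⟩ := Pool.Agent.Run7.h172.Npp.fbN hA F hE.1 hE' (ε / 2) (by positivity)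
  set c : ℂ := ∫ y, F y with hc
  have key : ∀ g : ℕ → ℂ, g = lam ∨ g = mu → ∃ H₀ : ℕ, ∀ N H : ℕ, H₀ ≤ H → H ≤ N →
      ∑ n ∈ Icc 1 N, orbitSup A F E g n H ≤ ε * H * N := by
    intro g hg
    obtain ⟨H₂, h₂⟩ := short hg (ε / (2 * (‖c‖ + 1))) (by positivity)
    have hgm := mult_of hg
    refine ⟨H₁ + H₂, fun N H hH hN => ?_⟩
    have hHr : (0 : ℝ) ≤ H := Nat.cast_nonneg _
    have hNr : (0 : ℝ) ≤ N := Nat.cast_nonneg _
    have h3 := h₁ g hgm N H (by omega) hN
    have h4 := h₂ N H (by omega) hN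
    have hpt : ∀ n, orbitSup A F E g n H ≤ Pool.Agent.Helper44K9.FB.oSup A (fun x => F x - c) E g n H +
        ‖c‖ * ‖∑ h ∈ Icc 1 H, g (n + h)‖ := by
      intro n
      have hbdd : BddAbove (Set.range fun p : E × (Fin m → UnitAddCircle) =>
          ‖∑ h ∈ Icc 1 H, g (n + h) * (F ((Pool.Agent.Helper44K9.FB.aff A p.1)^[n + h] p.2) - c)‖) := by
        refine ⟨∑ h ∈ Icc 1 H, (‖F‖ + ‖c‖), ?_⟩
        rintro _ ⟨p, rfl⟩
        refine (norm_sum_le _ _).trans (sum_le_sum fun h _ => ?_)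
        rw [norm_mul]
        have e1 := hgm.1 (n + h)
        have e2 : ‖F ((Pool.Agent.Helper44K9.FB.aff A p.1)^[n + h] p.2) - c‖ ≤ ‖F‖ + ‖c‖ :=
          (norm_sub_le _ _).trans (add_le_add (F.norm_coe_le_norm _) le_rfl)
        calc _ ≤ 1 * ‖F ((Pool.Agent.Helper44K9.FB.aff A p.1)^[n + h] p.2) - c‖ :=
              mul_le_mul_of_nonneg_right e1 (norm_nonneg _)
          _ ≤ _ := by rw [one_mul]; exact e2
      have hnn : 0 ≤ Pool.Agent.Helper44K9.FB.oSup A (fun x => F x - c) E g n H +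
          ‖c‖ * ‖∑ h ∈ Icc 1 H, g (n + h)‖ :=
        add_nonneg (Real.iSup_nonneg fun _ => norm_nonneg _) (by positivity)
      refine Real.iSup_le (fun p => ?_) hnn
      have e3 : ∑ h ∈ Icc 1 H, g (n + h) * F ((affineMap A p.1)^[n + h] p.2) =
          ∑ h ∈ Icc 1 H, g (n + h) * (F ((Pool.Agent.Helper44K9.FB.aff A p.1)^[n + h] p.2) - c) +
            c * ∑ h ∈ Icc 1 H, g (n + h) := by
        rw [mul_sum, ← sum_add_distrib]
        refine sum_congr rfl fun h _ => ?_
        show g (n + h) * F ((Pool.Agent.Helper44K9.FB.aff A p.1)^[n + h] p.2) = _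
        ring
      rw [e3]
      refine (norm_add_le _ _).trans (add_le_add ?_ ?_)
      · exact le_ciSup hbdd p
      · rw [norm_mul]
    calc ∑ n ∈ Icc 1 N, orbitSup A F E g n H ≤
        ∑ n ∈ Icc 1 N, (Pool.Agent.Helper44K9.FB.oSup A (fun x => F x - c) E g n H +
          ‖c‖ * ‖∑ h ∈ Icc 1 H, g (n + h)‖) := sum_le_sum fun n _ => hpt n
      _ ≤ ε / 2 * H * N + (‖c‖ + 1) * (ε / (2 * (‖c‖ + 1)) * H * N) := by
          rw [sum_add_distrib, ← mul_sum]
          refine add_le_add h3 ?_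
          refine mul_le_mul (by linarith) h4 (sum_nonneg fun n _ => by positivity) (by positivity)
      _ = ε * H * N := by field_simp; ring
  obtain ⟨H₂, h₂⟩ := key mu (Or.inr rfl)
  obtain ⟨H₃, h₃⟩ := key lam (Or.inl rfl)
  refine ⟨H₁ + H₂ + H₃, fun N H hH hN => ⟨h₂ N H (by omega) hN, h₃ N H (by omega) hN, fun f hf => ?_⟩⟩
  refine (h₁ f hf N H (by omega) hN).trans ?_
  have hHr : (0 : ℝ) ≤ H := Nat.cast_nonneg _
  have hNr : (0 : ℝ) ≤ N := Nat.cast_nonneg _
  have : 0 ≤ ε * H * N := by positivity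
  linarith

end Pool.Agent.Results.MP_663568_nt.NaturalAffineMaps
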