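import Pool.Agent.Run7.h172.Npp.All

/-!
# Natural averages over short intervals and polynomial phases: the exact class of sets (MP_663568_nt)

For every degree `d` and every compact set `E ⊆ ℝ/ℤ`: the sum over `n ≤ N`, WITHOUT logarithmic weights, of the
supremum over ALL real polynomials `P` of degree at most `d` with coefficient of `x^d` in `E` modulo one of
`|∑_{h ≤ H} f(n+h) e(P(n+h))|` is `o(H N)`, uniformly over `N ≥ H ≥ H₀` and over ALL multiplicative `f`, `|f| ≤ 1`, if and
only if `E` is a null set of irrational numbers.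
-/

set_option autoImplicit false

open Finset Polynomial MeasureTheory

namespace Pool.Agent.Results.MP_663568_nt.NaturalAverages

/-- `e(x) = exp(2 π i x)` -/
noncomputable def e (x : ℝ) : ℂ := Complex.exp (2 * Real.pi * Complex.I * x)

/-- `f` is multiplicative and bounded by one. -/
def IsBoundedMultiplicative (f : ℕ → ℂ) : Prop :=
  (∀ n, ‖f n‖ ≤ 1) ∧ ∀ a b : ℕ, a.Coprime b → f (a * b) = f a * f b

/-- The supremum of `|∑_{1 ≤ h ≤ H} f(n + h) e(P(n + h))|` over all real polynomials `P` of degree at most `d` whose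
coefficient of `x ^ d` is in `E` modulo one; all other coefficients are arbitrary. -/
noncomputable def phaseSup (d : ℕ) (E : Set UnitAddCircle) (f : ℕ → ℂ) (n H : ℕ) : ℝ :=
  ⨆ P : {P : ℝ[X] // P.natDegree ≤ d ∧ ((P.coeff d : ℝ) : UnitAddCircle) ∈ E},
    ‖∑ h ∈ Icc 1 H, f (n + h) * e (P.1.eval ((n + h : ℕ) : ℝ))‖

lemma phaseSup_eq (d : ℕ) (E : Set UnitAddCircle) (f : ℕ → ℂ) (n H : ℕ) :
    phaseSup d E f n H = Pool.Agent.Run7.h172.Npp.nSup d E f n H := by
  unfold phaseSup Pool.Agent.Run7.h172.Npp.nSup Pool.Agent.Helper44K9.FU.W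
  have h1 : Ioc n (n + H) = (Icc 1 H).image (fun h => n + h) := by
    ext m
    simp only [mem_Ioc, mem_image, mem_Icc]
    constructor
    · intro h; exact ⟨m - n, by omega, by omega⟩
    · rintro ⟨j, hj, rfl⟩; omega
  congr 1
  funext P
  rw [h1, sum_image fun a _ b _ hab => by omega]
  rfl

lemma irrational_of {t : ℝ} (h : addOrderOf (t : UnitAddCircle) = 0) : Irrational t := by
  rintro ⟨q, hq⟩
  have h1 : (q.den : ℕ) • (t : UnitAddCircle) = 0 := by
    rw [← AddCircle.coe_nsmul, AddCircle.coe_eq_zero_iff]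
    refine ⟨q.num, ?_⟩
    rw [← hq]
    simp only [zsmul_eq_mul, mul_one, nsmul_eq_mul]
    have h2 : (q.den : ℝ) ≠ 0 := by exact_mod_cast q.den_nz
    have h3 : (q : ℝ) = (q.num : ℝ) / (q.den : ℝ) := by exact_mod_cast (Rat.num_div_den q).symm
    rw [h3]
    field_simp
  have h4 := addOrderOf_dvd_of_nsmul_eq_zero h1
  rw [h] at h4
  exact q.den_nz (Nat.eq_zero_of_zero_dvd h4)

lemma torsion_free_of {t : ℝ} (h3 : Irrational t) : addOrderOf (t : UnitAddCircle) = 0 := by
  by_contra hne
  have h5 := addOrderOf_nsmul_eq_zero (t : UnitAddCircle)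
  rw [← AddCircle.coe_nsmul, AddCircle.coe_eq_zero_iff] at h5
  obtain ⟨j, hj⟩ := h5
  apply h3
  refine ⟨(j : ℚ) / (addOrderOf (t : UnitAddCircle) : ℚ), ?_⟩
  push_cast
  rw [div_eq_iff (by exact_mod_cast hne)]
  simp only [zsmul_eq_mul, mul_one, nsmul_eq_mul] at hj
  rw [hj]
  ring

lemma torsion_free_iff (E : Set UnitAddCircle) :
    (∀ x ∈ E, addOrderOf x = 0) ↔ ∀ t : ℝ, (t : UnitAddCircle) ∈ E → Irrational t := by
  constructor
  · exact fun h t ht => irrational_of (h _ ht)
  · intro hE x hx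
    induction x using QuotientAddGroup.induction_on with
    | H t => exact torsion_free_of (hE t hx)

/-- **Natural averages over short intervals, polynomial phases.** For each degree `d ≥ 1` and each compact set
`E ⊆ ℝ/ℤ` the following are equivalent:
(i) for each `ε > 0` there is `H₀` such that for all multiplicative `f` bounded by one and all `N ≥ H ≥ H₀`
`∑_{n ≤ N} sup_P |∑_{h ≤ H} f(n + h) e(P(n + h))| ≤ ε H N`, the supremum over all real polynomials of degree at most `d`
with coefficient of `x ^ d` in `E` modulo one;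
(ii) `E` has measure zero and contains no rational number modulo one. -/
theorem result : ∀ d : ℕ, 1 ≤ d → ∀ E : Set UnitAddCircle, IsCompact E →
    ((∀ ε : ℝ, 0 < ε → ∃ H₀ : ℕ, ∀ f : ℕ → ℂ, IsBoundedMultiplicative f → ∀ N H : ℕ, H₀ ≤ H → H ≤ N →
      ∑ n ∈ Icc 1 N, phaseSup d E f n H ≤ ε * H * N) ↔
    volume E = 0 ∧ ∀ t : ℝ, (t : UnitAddCircle) ∈ E → Irrational t) := by
  intro d hd E hE
  simp only [phaseSup_eq]
  rw [← torsion_free_iff]
  exact Pool.Agent.Run7.h172.Npp.good_iff d hd E hE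

end Pool.Agent.Results.MP_663568_nt.NaturalAverages
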