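import Pool.Agent.Run7.h172.Nil.All
import Pool.Agent.Run7.h172.Nls.Log

/-!
# Natural averages over short intervals: two-step nilmanifolds (MP_663568_nt)

`G = ℝ^d × ℝ^c` with the product `(x, t) (y, s) = (x + y, t + s + β(x, y))`, `β` bilinear with integer coefficients,
`Γ = ℤ^d × ℤ^c`: in Mal'cev coordinates every connected simply connected two-step nilpotent Lie group with a lattice.
`E` is a compact set in the horizontal torus `ℝ^d/ℤ^d` such that `k · E` is a null set of irrational numbers for every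
integer vector `k ≠ 0`. For every continuous `F` on `G/Γ` the sum over `n ≤ N`, WITHOUT logarithmic weights, of the
supremum over ALL `g ∈ G` with horizontal part in `E` and ALL points `y` of the nilmanifold of
`|∑_{h ≤ H} F(g^(n+h) y) μ(n+h)|` is `o(H N)`, uniformly over `N ≥ H`.
-/

set_option autoImplicit false

open Finset MeasureTheory Filter Topology

namespace Pool.Agent.Results.MP_663568_nt.NaturalTwoStep

/-- The product of the group `G = ℝ^d × ℝ^c`: `(x, t) (y, s) = (x + y, t + s + β(x, y))` with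
`β(x, y)_l = ∑_{i,j} x_i β_l(i, j) y_j`. -/
noncomputable def mul {d c : ℕ} (β : Fin c → Matrix (Fin d) (Fin d) ℤ) (g h : (Fin d → ℝ) × (Fin c → ℝ)) :
    (Fin d → ℝ) × (Fin c → ℝ) :=
  (g.1 + h.1, g.2 + h.2 + fun l => ∑ i, ∑ j, g.1 i * (β l i j : ℝ) * h.1 j)

/-- The commutator subgroup of `G` is `{0} × ℝ^c`: no nonzero integral combination of the matrices `β_l` is symmetric
(for `c = 0`, when `G = ℝ^d`, this is an empty condition). -/
def CommutatorsSpan {d c : ℕ} (β : Fin c → Matrix (Fin d) (Fin d) ℤ) : Prop :=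
  ∀ k : Fin c → ℤ, k ≠ 0 → (∑ l, k l • β l).transpose ≠ ∑ l, k l • β l

/-- `F` is a continuous function on `G/Γ`, `Γ = ℤ^d × ℤ^c`. -/
def IsFunctionOnNilmanifold {d c : ℕ} (β : Fin c → Matrix (Fin d) (Fin d) ℤ)
    (F : (Fin d → ℝ) × (Fin c → ℝ) → ℂ) : Prop :=
  Continuous F ∧ ∀ (g : (Fin d → ℝ) × (Fin c → ℝ)) (m : Fin d → ℤ) (j : Fin c → ℤ),
    F (mul β g (fun i => (m i : ℝ), fun l => (j l : ℝ))) = F g

/-- `E` is a compact set in the horizontal torus and for every integer vector `k ≠ 0` the numbers `k · x`, `x ∈ E`, are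
irrational modulo one and form a set of measure zero. -/
def SmallHorizontal {d : ℕ} (E : Set (Fin d → UnitAddCircle)) : Prop :=
  IsCompact E ∧ ∀ k : Fin d → ℤ, k ≠ 0 → volume ((fun x : Fin d → UnitAddCircle => ∑ i, k i • x i) '' E) = 0 ∧
    ∀ x ∈ E, ∀ t : ℝ, (t : UnitAddCircle) = ∑ i, k i • x i → Irrational t

/-- `f` is multiplicative and bounded by one. -/
def IsBoundedMultiplicative (f : ℕ → ℂ) : Prop :=
  (∀ n, ‖f n‖ ≤ 1) ∧ ∀ a b : ℕ, a.Coprime b → f (a * b) = f a * f b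

/-- The supremum of `|∑_{1 ≤ h ≤ H} f(n + h) F(g^(n+h) y)|` over all `g ∈ G` with horizontal part in `E` and all
`y ∈ G`; here `g^m y` is the `m`-th iterate at `y` of the left multiplication by `g`. -/
noncomputable def windowSup {d c : ℕ} (β : Fin c → Matrix (Fin d) (Fin d) ℤ) (F : (Fin d → ℝ) × (Fin c → ℝ) → ℂ)
    (E : Set (Fin d → UnitAddCircle)) (f : ℕ → ℂ) (n H : ℕ) : ℝ :=
  ⨆ p : {g : (Fin d → ℝ) × (Fin c → ℝ) // (fun i => (g.1 i : UnitAddCircle)) ∈ E} × ((Fin d → ℝ) × (Fin c → ℝ)),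
    ‖∑ h ∈ Icc 1 H, f (n + h) * F ((mul β p.1.1)^[n + h] p.2)‖

/-- the Liouville function -/
noncomputable def lam (n : ℕ) : ℂ := (-1) ^ ArithmeticFunction.cardFactors n

/-- the Möbius function -/
noncomputable def mu (n : ℕ) : ℂ := ((ArithmeticFunction.moebius n : ℤ) : ℂ)

/-- the mean value of `F` on the nilmanifold, as an integral over the unit cube -/
noncomputable def mean {d c : ℕ} (F : (Fin d → ℝ) × (Fin c → ℝ) → ℂ) : ℂ :=
  ∫ p in Set.Icc (0 : (Fin d → ℝ) × (Fin c → ℝ)) 1, F p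

lemma torsion_free_of {t : ℝ} (h3 : Irrational t) : addOrderOf (t : UnitAddCircle) = 0 := by
  by_contra hne
  have h5 := addOrderOf_nsmul_eq_zero (t : UnitAddCircle)
  rw [← AddCircle.coe_nsmul, AddCircle.coe_eq_zero_iff] at h5
  obtain ⟨j, hj⟩ := h5
  apply h3
  refine ⟨(j : ℚ) / (addOrderOf (t : UnitAddCircle) : ℚ), ?_⟩
  push_cast
  rw [div_eq_iff (by exact_mod_cast hne)]
  simp only [zsmul_eq_mul, mul_one, nsmul_eq_mul] at hj
  rw [hj]
  ring

open Pool.Agent.Run7.h172.Nls in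
/-- short sums of the Möbius and the Liouville function -/
lemma short {g : ℕ → ℂ} (hg : g = lam ∨ g = mu) (ε : ℝ) (hε : 0 < ε) : ∃ H₀ : ℕ, ∀ N H : ℕ, H₀ ≤ H → H ≤ N →
    ∑ n ∈ Icc 1 N, ‖∑ h ∈ Icc 1 H, g (n + h)‖ ≤ ε * H * N := by
  have hmul : Pool.Agent.W24.Katai.Mul1 g ∧ Pool.Agent.TH823.MRS.ExpoSmall g := by
    rcases hg with rfl | rfl
    · exact ⟨lamC_mul, lamC_expo⟩
    · exact ⟨muC_mul, muC_expo⟩
  obtain ⟨δ, hδ, H0, h0⟩ := uniformity_nhds hmul.1 hmul.2 (isClosed_singleton (x := (0 : UnitAddCircle)))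
    (by rw [← Metric.closedBall_zero, AddCircle.volume_closedBall]; simp) (ε / 3) (by positivity)
  refine ⟨H0 + 1, fun N H hH hN => ?_⟩
  have h1 := h0 H (by omega) (N + 2) (by omega) (fun _ => 0) (fun n => ⟨0, rfl, by simp [hδ.le]⟩)
  simp only [mul_zero, Pool.Agent.H807R2.Dav.ee_zero, mul_one] at h1
  have h2 : ∑ n ∈ Icc 1 N, ‖∑ h ∈ Icc 1 H, g (n + h)‖ ≤ ∑ n ∈ range (N + 2), ‖∑ i ∈ range H, g (n + i)‖ := by
    have e1 : ∀ n, ∑ h ∈ Icc 1 H, g (n + h) = ∑ i ∈ range H, g (n + 1 + i) := by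
      intro n
      have e2 : Icc 1 H = Ico 1 (1 + H) := by ext n; simp only [mem_Icc, mem_Ico]; omega
      rw [e2, sum_Ico_eq_sum_range, Nat.add_sub_cancel_left]
      exact sum_congr rfl fun i _ => by rw [← Nat.add_assoc]
    simp only [e1]
    have e3 : ∑ n ∈ Icc 1 N, ‖∑ i ∈ range H, g (n + 1 + i)‖ =
        ∑ n ∈ (Icc 1 N).image (fun n => n + 1), ‖∑ i ∈ range H, g (n + i)‖ := by
      rw [sum_image fun a _ b _ hab => by omega]
    rw [e3]
    apply sum_le_sum_of_subset_of_nonneg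
    · intro k hk
      obtain ⟨j, hj, rfl⟩ := mem_image.1 hk
      rw [mem_Icc] at hj
      rw [mem_range]
      omega
    · intro _ _ _
      exact norm_nonneg _
  refine h2.trans (h1.trans ?_)
  have hN1 : (1 : ℝ) ≤ N := by exact_mod_cast (by omega : 1 ≤ N)
  have hHr : (0 : ℝ) ≤ H := Nat.cast_nonneg _
  push_cast
  have h3 : ((N : ℝ) + 2) ≤ 3 * N := by linarith
  calc ε / 3 * (H : ℝ) * ((N : ℝ) + 2) ≤ ε / 3 * H * (3 * N) := mul_le_mul_of_nonneg_left h3 (by positivity)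
    _ = ε * H * N := by ring

lemma mult_of {g : ℕ → ℂ} (hg : g = lam ∨ g = mu) : IsBoundedMultiplicative g := by
  rcases hg with rfl | rfl
  · exact Pool.Agent.Run7.h172.Nls.lamC_mul
  · exact Pool.Agent.Run7.h172.Nls.muC_mul

/-- continuous functions on the nilmanifold are bounded -/
lemma bounded {d c : ℕ} (β : Fin c → Matrix (Fin d) (Fin d) ℤ) (F : (Fin d → ℝ) × (Fin c → ℝ) → ℂ)
    (hF : IsFunctionOnNilmanifold β F) : ∃ M : ℝ, 0 ≤ M ∧ ∀ z, ‖F z‖ ≤ M := by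
  obtain ⟨S, φ, M, hM, hφ, hS⟩ := Pool.Agent.Helper44K9.FN.vert d c β F hF.1 hF.2 1 one_pos
  refine ⟨1 + S.card * M, by positivity, fun z => ?_⟩
  have h1 := hS z.1 z.2
  rw [Prod.mk.eta] at h1
  have e : F z = (F z - ∑ k ∈ S, Pool.Agent.H807R2.Dav.ee (Pool.Agent.Helper44K9.FN.dt k z.2) * φ k z.1) +
      ∑ k ∈ S, Pool.Agent.H807R2.Dav.ee (Pool.Agent.Helper44K9.FN.dt k z.2) * φ k z.1 := by ring
  rw [e]
  refine (norm_add_le _ _).trans (add_le_add h1 ((norm_sum_le _ _).trans ?_))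
  calc ∑ k ∈ S, ‖Pool.Agent.H807R2.Dav.ee (Pool.Agent.Helper44K9.FN.dt k z.2) * φ k z.1‖ ≤ ∑ k ∈ S, M := by
        refine sum_le_sum fun k _ => ?_
        rw [norm_mul, Pool.Agent.H807R2.Dav.norm_ee, one_mul]
        exact (hφ k).2.1 _
    _ = S.card * M := by rw [sum_const, nsmul_eq_mul]

/-- **Natural averages over short intervals, two-step nilmanifolds.** Let `F` be a continuous function on the two-step
nilmanifold `G/Γ` and `E` a compact set of horizontal directions such that `k · E` is a null set of irrational numbers for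
each integer vector `k ≠ 0`. For each `ε > 0` there is `H₀` such that for all `N ≥ H ≥ H₀`
(1) `∑_{n ≤ N} sup_{g, y} |∑_{h ≤ H} F(g^(n+h) y) u(n+h)| ≤ ε H N` for `u` the Möbius and the Liouville function, the
supremum over all `g ∈ G` with horizontal part in `E` and all `y ∈ G`;
(2) the same holds for all multiplicative functions `f` bounded by one in place of `u`, uniformly in `f`, if `F` is
replaced by `F` minus its mean value. -/
theorem result (d c : ℕ) (β : Fin c → Matrix (Fin d) (Fin d) ℤ) (hβ : CommutatorsSpan β)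
    (F : (Fin d → ℝ) × (Fin c → ℝ) → ℂ) (hF : IsFunctionOnNilmanifold β F)
    (E : Set (Fin d → UnitAddCircle)) (hE : SmallHorizontal E) (ε : ℝ) (hε : 0 < ε) :
    ∃ H₀ : ℕ, ∀ N H : ℕ, H₀ ≤ H → H ≤ N →
      ∑ n ∈ Icc 1 N, windowSup β F E mu n H ≤ ε * H * N ∧ ∑ n ∈ Icc 1 N, windowSup β F E lam n H ≤ ε * H * N ∧
      ∀ f : ℕ → ℂ, IsBoundedMultiplicative f →
        ∑ n ∈ Icc 1 N, windowSup β (fun z => F z - mean F) E f n H ≤ ε * H * N := by
  have hEv : ∀ k : Fin d → ℤ, k ≠ 0 → volume (Pool.Agent.Helper44K9.FB.lf k '' E) = 0 := fun k hk => (hE.2 k hk).1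
  have hEi : Pool.Agent.Helper44K9.FN.Irr E := by
    intro k hk x hx
    obtain ⟨t, ht⟩ := QuotientAddGroup.mk_surjective (Pool.Agent.Helper44K9.FB.lf k x)
    have h3 : Irrational t := (hE.2 k hk).2 x hx t ht
    rw [← ht]
    exact torsion_free_of h3
  have hmain : ∀ ε : ℝ, 0 < ε → ∃ H₀ : ℕ, ∀ f : ℕ → ℂ, IsBoundedMultiplicative f → ∀ N H : ℕ, H₀ ≤ H → H ≤ N →
      ∑ n ∈ Icc 1 N, windowSup β (fun z => F z - mean F) E f n H ≤ ε * H * N := fun ε hε =>
    Pool.Agent.Run7.h172.Nil.nil_natural d c β hβ F hF.1 hF.2 E hE.1 hEi hEv ε hε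
  -- `F` is bounded
  obtain ⟨M, hM0, hM⟩ : ∃ M : ℝ, 0 ≤ M ∧ ∀ z, ‖F z‖ ≤ M := bounded β F hF
  obtain ⟨H₁, h₁⟩ := hmain (ε / 2) (by positivity)
  set c₀ : ℂ := mean F with hc₀
  have key : ∀ g : ℕ → ℂ, g = lam ∨ g = mu → ∃ H₀ : ℕ, ∀ N H : ℕ, H₀ ≤ H → H ≤ N →
      ∑ n ∈ Icc 1 N, windowSup β F E g n H ≤ ε * H * N := by
    intro g hg
    obtain ⟨H₂, h₂⟩ := short hg (ε / (2 * (‖c₀‖ + 1))) (by positivity)
    have hgm := mult_of hg
    refine ⟨H₁ + H₂, fun N H hH hN => ?_⟩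
    have hHr : (0 : ℝ) ≤ H := Nat.cast_nonneg _
    have hNr : (0 : ℝ) ≤ N := Nat.cast_nonneg _
    have h3 := h₁ g hgm N H (by omega) hN
    have h4 := h₂ N H (by omega) hN
    have hpt : ∀ n, windowSup β F E g n H ≤ windowSup β (fun z => F z - c₀) E g n H +
        ‖c₀‖ * ‖∑ h ∈ Icc 1 H, g (n + h)‖ := by
      intro n
      have hbdd : BddAbove (Set.range fun p : {g : (Fin d → ℝ) × (Fin c → ℝ) //
          (fun i => (g.1 i : UnitAddCircle)) ∈ E} × ((Fin d → ℝ) × (Fin c → ℝ)) =>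
          ‖∑ h ∈ Icc 1 H, g (n + h) * (F ((mul β p.1.1)^[n + h] p.2) - c₀)‖) := by
        refine ⟨∑ h ∈ Icc 1 H, (M + ‖c₀‖), ?_⟩
        rintro _ ⟨p, rfl⟩
        refine (norm_sum_le _ _).trans (sum_le_sum fun h _ => ?_)
        rw [norm_mul]
        have e1 := hgm.1 (n + h)
        have e2 : ‖F ((mul β p.1.1)^[n + h] p.2) - c₀‖ ≤ M + ‖c₀‖ :=
          (norm_sub_le _ _).trans (add_le_add (hM _) le_rfl)
        calc _ ≤ 1 * ‖F ((mul β p.1.1)^[n + h] p.2) - c₀‖ :=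
              mul_le_mul_of_nonneg_right e1 (norm_nonneg _)
          _ ≤ _ := by rw [one_mul]; exact e2
      have hnn : 0 ≤ windowSup β (fun z => F z - c₀) E g n H + ‖c₀‖ * ‖∑ h ∈ Icc 1 H, g (n + h)‖ :=
        add_nonneg (Real.iSup_nonneg fun _ => norm_nonneg _) (by positivity)
      refine Real.iSup_le (fun p => ?_) hnn
      have e3 : ∑ h ∈ Icc 1 H, g (n + h) * F ((mul β p.1.1)^[n + h] p.2) =
          ∑ h ∈ Icc 1 H, g (n + h) * (F ((mul β p.1.1)^[n + h] p.2) - c₀) +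
            c₀ * ∑ h ∈ Icc 1 H, g (n + h) := by
        rw [mul_sum, ← sum_add_distrib]
        refine sum_congr rfl fun h _ => ?_
        ring
      rw [e3]
      refine (norm_add_le _ _).trans (add_le_add ?_ ?_)
      · exact le_ciSup hbdd p
      · rw [norm_mul]
    calc ∑ n ∈ Icc 1 N, windowSup β F E g n H ≤
        ∑ n ∈ Icc 1 N, (windowSup β (fun z => F z - c₀) E g n H +
          ‖c₀‖ * ‖∑ h ∈ Icc 1 H, g (n + h)‖) := sum_le_sum fun n _ => hpt n
      _ ≤ ε / 2 * H * N + (‖c₀‖ + 1) * (ε / (2 * (‖c₀‖ + 1)) * H * N) := by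
          rw [sum_add_distrib, ← mul_sum]
          refine add_le_add h3 ?_
          refine mul_le_mul (by linarith) h4 (sum_nonneg fun n _ => by positivity) (by positivity)
      _ = ε * H * N := by field_simp; ring
  obtain ⟨H₂, h₂⟩ := key mu (Or.inr rfl)
  obtain ⟨H₃, h₃⟩ := key lam (Or.inl rfl)
  refine ⟨H₁ + H₂ + H₃, fun N H hH hN => ⟨h₂ N H (by omega) hN, h₃ N H (by omega) hN, fun f hf => ?_⟩⟩
  refine (h₁ f hf N H (by omega) hN).trans ?_
  have hHr : (0 : ℝ) ≤ H := Nat.cast_nonneg _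
  have hNr : (0 : ℝ) ≤ N := Nat.cast_nonneg _
  have : 0 ≤ ε * H * N := by positivity
  linarith

end Pool.Agent.Results.MP_663568_nt.NaturalTwoStep
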